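import Pool.Agent.Helper40_Dio.Stmt

/-! # DIO (MP_9ca527_nt), module SIE -/

set_option autoImplicit false

namespace Pool.Agent.DIO.H21

open Pool.Agent.DIO

attribute [local instance] Matrix.seminormedAddCommGroup

theorem crd_zsmul {S : Type} [CommRing S] (O : Ord4 S) (m : ℤ) (x : S) (j : Fin 4) :
    O.crd ((m : S) * x) j = m * O.crd x j := by
  rw [← zsmul_eq_mul, map_zsmul]
  simp

theorem sie : SieStatement := by
  intro S _ O ι κ _ _ a H hH hb hc hι
  classical
  have hιpos : (1 : ℝ) ≤ (Fintype.card ι : ℝ) := by exact_mod_cast hι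
  rcases Nat.eq_zero_or_pos (Fintype.card κ) with hκ | hκ
  · have hem : IsEmpty κ := Fintype.card_eq_zero_iff.mp hκ
    refine ⟨fun _ => 1, ?_, ?_, fun k => (hem.false k).elim⟩
    · intro h
      obtain ⟨i⟩ := Fintype.card_pos_iff.mp hι
      have := congrFun h i
      simp at this
    · intro i
      simp only [Int.cast_one, abs_one]
      nlinarith
  · let A : Matrix (κ × Fin 4) ι ℤ := fun kj i => O.crd (a kj.1 i) kj.2
    have hcard : Fintype.card (κ × Fin 4) = 4 * Fintype.card κ := by
      simp [Fintype.card_prod, mul_comm]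
    have hlt : Fintype.card (κ × Fin 4) < Fintype.card ι := by omega
    have hpos : 0 < Fintype.card (κ × Fin 4) := by omega
    obtain ⟨t, ht0, htA, htn⟩ := Int.Matrix.exists_ne_zero_int_vec_norm_le A hlt hpos
    have hAle : max 1 ‖A‖ ≤ H := by
      refine max_le hH ?_
      rw [Matrix.norm_le_iff (by linarith)]
      rintro ⟨k, j⟩ i
      rw [Int.norm_eq_abs]
      exact O.crd_le (a k i) H (fun j => hb k i j) j
    have hmax1 : (1 : ℝ) ≤ max 1 ‖A‖ := le_max_left _ _
    have hbase : (1 : ℝ) ≤ (Fintype.card ι : ℝ) * max 1 ‖A‖ := by nlinarith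
    have hexp : ((Fintype.card (κ × Fin 4) : ℝ) /
        ((Fintype.card ι : ℝ) - (Fintype.card (κ × Fin 4) : ℝ))) ≤ 1 := by
      have h1 : (Fintype.card (κ × Fin 4) : ℝ) = 4 * (Fintype.card κ : ℝ) := by
        rw [hcard]; push_cast; ring
      have h2 : (8 : ℝ) * (Fintype.card κ : ℝ) ≤ (Fintype.card ι : ℝ) := by exact_mod_cast hc
      have h3 : (0 : ℝ) < (Fintype.card κ : ℝ) := by exact_mod_cast hκ
      rw [h1, div_le_one (by linarith)]
      linarith
    have hnorm : ‖t‖ ≤ (Fintype.card ι : ℝ) * H := by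
      refine htn.trans ?_
      calc _ ≤ ((Fintype.card ι : ℝ) * max 1 ‖A‖) ^ (1 : ℝ) :=
            Real.rpow_le_rpow_of_exponent_le hbase hexp
        _ = (Fintype.card ι : ℝ) * max 1 ‖A‖ := Real.rpow_one _
        _ ≤ _ := by gcongr
    refine ⟨t, ht0, ?_, ?_⟩
    · intro i
      have := norm_le_pi_norm t i
      rw [Int.norm_eq_abs] at this
      exact this.trans hnorm
    · intro k
      apply O.crd_inj
      rw [map_sum]
      funext j
      have h1 := congrFun htA (k, j)
      simp only [Matrix.mulVec, dotProduct, A, Pi.zero_apply] at h1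
      rw [Finset.sum_apply, Pi.zero_apply, ← h1]
      refine Finset.sum_congr rfl fun i _ => ?_
      rw [crd_zsmul, mul_comm]

end Pool.Agent.DIO.H21
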