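import Pool.Agent.Helper40_Dio.Stmt

/-! # DIO (MP_9ca527_nt), module VDM -/

set_option autoImplicit false

namespace Pool.Agent.DIO.H21

open Pool.Agent.DIO

theorem vdm : VdmStatement := by
  intro ι _ v p hv h0 hs
  classical
  let e := Fintype.equivFin ι
  let w : Fin (Fintype.card ι) → ℝ := fun j => (p (e.symm j) : ℝ) * v (e.symm j)
  have hdet : (Matrix.vandermonde (v ∘ e.symm)).det ≠ 0 := by
    rw [Matrix.det_vandermonde_ne_zero_iff]
    exact hv.comp e.symm.injective
  have hw : Matrix.vecMul w (Matrix.vandermonde (v ∘ e.symm)) = 0 := by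
    funext j
    have := hs ((j : ℕ) + 1) (by omega) (by have := j.2; omega)
    rw [← e.symm.sum_comp] at this
    simp only [Matrix.vecMul, dotProduct, Matrix.vandermonde_apply, Function.comp, w,
      Pi.zero_apply]
    rw [← this]
    refine Finset.sum_congr rfl fun i _ => ?_
    rw [pow_succ]
    ring
  have hw0 := Matrix.eq_zero_of_vecMul_eq_zero hdet hw
  funext i
  have h1 := congrFun hw0 (e i)
  simp only [w, Pi.zero_apply, Equiv.symm_apply_apply, mul_eq_zero, Int.cast_eq_zero] at h1
  rcases h1 with h1 | h1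
  · exact h1
  · exact absurd h1 (h0 i)

end Pool.Agent.DIO.H21
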